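import Mathlib

/-!
# A Taylor expansion of second order from limits along sequences
-/

set_option autoImplicit false

namespace Pool.Agent.Y240.TKX

open Filter Topology

/-- the values of an analytic function along sequences determine its Taylor polynomial -/
theorem key {E : Type*} [NormedAddCommGroup E] [NormedSpace ℝ E] (g : E → ℂ) (D : ℂ) (L : E → ℂ)
    (hg : AnalyticAt ℝ g 0)
    (h : ∀ v, ∃ u : ℕ → E, Tendsto (fun N : ℕ => √(N : ℝ) • u N) atTop (𝓝 v) ∧
      Tendsto (fun N : ℕ => (N : ℂ) * (g (u N) - D)) atTop (𝓝 (L v))) :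
    ∃ r C : ℝ, 0 < r ∧ ∀ u, ‖u‖ < r → ‖g u - D - L u‖ ≤ C * ‖u‖ ^ 3 := by
  obtain ⟨p, hp⟩ := hg
  have hO := hp.isBigO_sub_partialSum_pow 3
  simp only [zero_add] at hO
  obtain ⟨C, hC0, hC⟩ := hO.exists_pos
  rw [Asymptotics.isBigOWith_iff] at hC
  -- the homogeneous parts
  set q : ℕ → E → ℂ := fun k y => p k (fun _ => y) with hq
  have hps : ∀ y, p.partialSum 3 y = q 0 y + q 1 y + q 2 y := by
    intro y
    simp [FormalMultilinearSeries.partialSum, Finset.sum_range_succ, hq]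
  have hsm : ∀ k (c : ℝ) y, q k (c • y) = (c : ℂ) ^ k * q k y := by
    intro k c y
    have := (p k).map_smul_univ (fun _ => c) (fun _ => y)
    simp only [Finset.prod_const, Finset.card_univ, Fintype.card_fin] at this
    simp only [hq]
    rw [this, Complex.real_smul]
    push_cast
    rfl
  have hcont : ∀ k, Continuous (q k) := fun k => (p k).cont.comp (continuous_pi fun _ => continuous_id)
  have hq0 : ∀ y, q 0 y = g 0 := by
    intro y
    have := hp.coeff_zero (fun _ => y)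
    simpa [hq] using this
  have hlim : ∀ v, q 1 v = 0 ∧ g 0 = D ∧ (q 1 = 0 → q 2 v = L v) := by
    intro v
    obtain ⟨u, hu, hgu⟩ := h v
    have hs : Tendsto (fun N : ℕ => (√(N : ℝ))⁻¹) atTop (𝓝 0) := by
      apply Filter.Tendsto.inv_tendsto_atTop
      exact (Real.tendsto_sqrt_atTop).comp tendsto_natCast_atTop_atTop
    have hev : ∀ᶠ N : ℕ in atTop, 0 < √(N : ℝ) := by
      filter_upwards [eventually_gt_atTop 0] with N hN
      exact Real.sqrt_pos.mpr (by exact_mod_cast hN)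
    have hu0 : Tendsto u atTop (𝓝 0) := by
      have := hs.smul hu
      rw [zero_smul] at this
      refine this.congr' ?_
      filter_upwards [hev] with N hN
      rw [smul_smul, inv_mul_cancel₀ hN.ne', one_smul]
    have hC' := hu0.eventually hC
    set a : ℕ → E := fun N => √(N : ℝ) • u N with ha
    have hsC : Tendsto (fun N : ℕ => (((√(N : ℝ))⁻¹ : ℝ) : ℂ)) atTop (𝓝 0) := by
      have := (Complex.continuous_ofReal.tendsto 0).comp hs
      simpa [Function.comp_def] using this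
    -- first step
    have hD : g 0 = D := by
      have h1 : Tendsto (fun N => g (u N) - D) atTop (𝓝 (g 0 - D)) :=
        ((hp.analyticAt.continuousAt.tendsto).comp hu0).sub_const D
      have h2 : Tendsto (fun N : ℕ => (((√(N : ℝ))⁻¹ : ℝ) : ℂ) * (((√(N : ℝ))⁻¹ : ℝ) : ℂ) *
          ((N : ℂ) * (g (u N) - D))) atTop (𝓝 (0 * 0 * L v)) := (hsC.mul hsC).mul hgu
      have h3 := h2.congr' (f₂ := fun N => g (u N) - D) (by
        filter_upwards [hev, eventually_gt_atTop 0] with N hN hN'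
        have e1 : ((√(N : ℝ) : ℝ) : ℂ) * ((√(N : ℝ) : ℝ) : ℂ) = N := by
          rw [← Complex.ofReal_mul, Real.mul_self_sqrt (Nat.cast_nonneg N)]
          simp
        have e2 : ((√(N : ℝ) : ℝ) : ℂ) ≠ 0 := by exact_mod_cast hN.ne'
        rw [← e1]
        push_cast
        field_simp)
      have := tendsto_nhds_unique h1 h3
      have h4 : g 0 - D = 0 := by simpa using this
      exact sub_eq_zero.mp h4
    -- remainder
    set e : ℕ → ℂ := fun N => g (u N) - (q 0 (u N) + q 1 (u N) + q 2 (u N)) with he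
    have hqa : ∀ k, Tendsto (fun N => q k (a N)) atTop (𝓝 (q k v)) := fun k =>
      ((hcont k).tendsto v).comp hu
    have hqu : ∀ k, ∀ᶠ N : ℕ in atTop, q k (u N) =
        (((√(N : ℝ))⁻¹ : ℝ) : ℂ) ^ k * q k (a N) := by
      intro k
      filter_upwards [hev] with N hN
      rw [← hsm, ha]
      congr 1
      simp only
      rw [smul_smul, inv_mul_cancel₀ hN.ne', one_smul]
    have hbd : ∀ᶠ N : ℕ in atTop, ‖(N : ℂ) * e N‖ ≤ C * (√(N : ℝ))⁻¹ * ‖a N‖ ^ 3 := by
      filter_upwards [hC', hev] with N h1 hN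
      have h2 : ‖e N‖ ≤ C * ‖u N‖ ^ 3 := by
        rw [he]
        simp only
        rw [← hps]
        refine h1.trans_eq ?_
        rw [Real.norm_of_nonneg (by positivity)]
      have h3 : ‖a N‖ = √(N : ℝ) * ‖u N‖ := by
        rw [ha]
        simp only
        rw [norm_smul, Real.norm_of_nonneg hN.le]
      rw [norm_mul, h3]
      have h4 : ‖(N : ℂ)‖ = √(N : ℝ) ^ 2 := by
        rw [Real.sq_sqrt (Nat.cast_nonneg N)]
        simp
      rw [h4]
      calc √(N : ℝ) ^ 2 * ‖e N‖ ≤ √(N : ℝ) ^ 2 * (C * ‖u N‖ ^ 3) := by gcongr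
        _ = C * (√(N : ℝ))⁻¹ * (√(N : ℝ) * ‖u N‖) ^ 3 := by
          field_simp
    have hNe : Tendsto (fun N : ℕ => (N : ℂ) * e N) atTop (𝓝 0) := by
      rw [tendsto_zero_iff_norm_tendsto_zero]
      have h1 : Tendsto (fun N : ℕ => C * (√(N : ℝ))⁻¹ * ‖a N‖ ^ 3) atTop (𝓝 (C * 0 * ‖v‖ ^ 3)) :=
        (hs.const_mul C).mul ((hu.norm).pow 3)
      rw [mul_zero, zero_mul] at h1
      exact tendsto_of_tendsto_of_tendsto_of_le_of_le' tendsto_const_nhds h1
        (Eventually.of_forall fun _ => norm_nonneg _) hbd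
    -- the identity
    have hid : ∀ᶠ N : ℕ in atTop, (N : ℂ) * (g (u N) - D) =
        ((√(N : ℝ) : ℝ) : ℂ) * q 1 (a N) + q 2 (a N) + (N : ℂ) * e N := by
      filter_upwards [hqu 1, hqu 2, hev] with N h1 h2 hN
      have e1 : ((√(N : ℝ) : ℝ) : ℂ) * ((√(N : ℝ) : ℝ) : ℂ) = N := by
        rw [← Complex.ofReal_mul, Real.mul_self_sqrt (Nat.cast_nonneg N)]
        simp
      have e2 : ((√(N : ℝ) : ℝ) : ℂ) ≠ 0 := by exact_mod_cast hN.ne'
      have e3 : g (u N) = D + q 1 (u N) + q 2 (u N) + e N := by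
        rw [he]
        simp only
        rw [hq0, hD]
        ring
      rw [e3, h1, h2, ← e1]
      push_cast
      field_simp
      ring
    have hq1 : q 1 v = 0 := by
      have h1 : Tendsto (fun N : ℕ => (((√(N : ℝ))⁻¹ : ℝ) : ℂ) * ((N : ℂ) * (g (u N) - D)) -
          (((√(N : ℝ))⁻¹ : ℝ) : ℂ) * q 2 (a N) -
          (((√(N : ℝ))⁻¹ : ℝ) : ℂ) * ((N : ℂ) * e N)) atTop
          (𝓝 (0 * L v - 0 * q 2 v - 0 * 0)) :=
        ((hsC.mul hgu).sub (hsC.mul (hqa 2))).sub (hsC.mul hNe)
      have h2 := h1.congr' (f₂ := fun N => q 1 (a N)) (by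
        filter_upwards [hid, hev] with N h1 hN
        have e2 : ((√(N : ℝ) : ℝ) : ℂ) ≠ 0 := by exact_mod_cast hN.ne'
        rw [h1]
        push_cast
        field_simp
        ring)
      have := tendsto_nhds_unique (hqa 1) h2
      simpa using this
    refine ⟨hq1, hD, fun hq1' => ?_⟩
    have h1 : Tendsto (fun N : ℕ => (N : ℂ) * (g (u N) - D) - (N : ℂ) * e N) atTop
        (𝓝 (L v - 0)) := hgu.sub hNe
    have h2 := h1.congr' (f₂ := fun N => q 2 (a N)) (by
      filter_upwards [hid] with N h1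
      rw [h1, hq1']
      simp)
    have := tendsto_nhds_unique (hqa 2) h2
    simpa using this
  have hq1 : q 1 = 0 := funext fun v => (hlim v).1
  obtain ⟨r, hr, hr'⟩ := Metric.eventually_nhds_iff.mp hC
  refine ⟨r, C, hr, fun u hu => ?_⟩
  have h1 := hr' (y := u) (by simpa using hu)
  rw [hps, hq0, (hlim u).2.1, hq1, (hlim u).2.2 hq1] at h1
  have h2 : g u - D - L u = g u - (D + (0 : E → ℂ) u + L u) := by
    simp only [Pi.zero_apply]
    ring
  rw [h2]
  refine h1.trans_eq ?_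
  rw [Real.norm_of_nonneg (by positivity)]

end Pool.Agent.Y240.TKX
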