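import Pool.Agent.Y472.K.DefsX
import Pool.Agent.Y240.TKX.Tay

/-!
# PTX: Taylor expansion of the potential of the Turk's head links at the critical point
-/

set_option autoImplicit false

namespace Pool.Agent.Y240.TKX

open Finset Filter Topology Pool.Agent.Y472.K
open scoped Real

/-- the inclusion of the real points as a continuous linear map -/
noncomputable def cl (ι : Type) [Fintype ι] : ((ι → ℝ) × ℝ) →L[ℝ] ((ι → ℂ) × ℂ) :=
  ((ContinuousLinearMap.pi fun i =>
    Complex.ofRealCLM.comp (ContinuousLinearMap.proj i)).comp (ContinuousLinearMap.fst ℝ _ _)).prod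
  (Complex.ofRealCLM.comp (ContinuousLinearMap.snd ℝ _ _))

theorem cl_apply {ι : Type} [Fintype ι] (v : (ι → ℝ) × ℝ) : cl ι v = cst v := by
  ext i <;> simp [cl, cst]

theorem analyticAt_cst {ι : Type} [Fintype ι] {Ψ : (ι → ℂ) × ℂ → ℂ} {ws : ι → ℝ}
    (h : AnalyticAt ℂ Ψ (cst (ws, 0))) :
    AnalyticAt ℝ (fun u : (ι → ℝ) × ℝ => Ψ (cst (fun i => ws i + u.1 i, u.2))) 0 := by
  have h1 : AnalyticAt ℝ Ψ (cst (ws, 0)) := h.restrictScalars
  have h2 : AnalyticAt ℝ (fun u : (ι → ℝ) × ℝ => cl ι ((ws, 0) + u)) 0 :=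
    ((cl ι).analyticAt _).comp (analyticAt_const.add analyticAt_id)
  have h3 : (fun u : (ι → ℝ) × ℝ => Ψ (cst (fun i => ws i + u.1 i, u.2))) =
      Ψ ∘ fun u : (ι → ℝ) × ℝ => cl ι ((ws, 0) + u) := by
    funext u
    simp only [Function.comp_apply, cl_apply]
    congr 2
    ext i <;> simp
  rw [h3]
  refine AnalyticAt.comp ?_ h2
  rw [add_zero, cl_apply]
  exact h1

/-- lattice points with a prescribed rescaled position -/
theorem floor_lim {w : ℝ} (hw : 0 < w) (a : ℝ) :
    Tendsto (fun N : ℕ => √(N : ℝ) * ((⌊w * N + √(N : ℝ) * a⌋₊ : ℝ) / N - w)) atTop (𝓝 a) := by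
  have hs0 : Tendsto (fun N : ℕ => √(N : ℝ)) atTop atTop :=
    (Real.tendsto_sqrt_atTop).comp tendsto_natCast_atTop_atTop
  have hs : Tendsto (fun N : ℕ => (√(N : ℝ))⁻¹) atTop (𝓝 0) := hs0.inv_tendsto_atTop
  have hpos : ∀ᶠ N : ℕ in atTop, 0 ≤ w * N + √(N : ℝ) * a := by
    have h1 : ∀ᶠ N : ℕ in atTop, |a| / w ≤ √(N : ℝ) := hs0.eventually_ge_atTop _
    filter_upwards [h1] with N hN
    have h2 : (N : ℝ) = √(N : ℝ) * √(N : ℝ) := (Real.mul_self_sqrt (Nat.cast_nonneg N)).symm
    have h3 : |a| ≤ √(N : ℝ) * w := (div_le_iff₀ hw).mp hN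
    have h4 : -|a| ≤ a := neg_abs_le a
    have h5 : 0 ≤ √(N : ℝ) := Real.sqrt_nonneg _
    have h6 : w * N + √(N : ℝ) * a = √(N : ℝ) * (√(N : ℝ) * w + a) := by
      nth_rewrite 1 [h2]
      ring
    rw [h6]
    apply mul_nonneg h5
    linarith
  have hev : ∀ᶠ N : ℕ in atTop, 0 < √(N : ℝ) := hs0.eventually_gt_atTop 0
  have h0 : Tendsto (fun N : ℕ => a - (√(N : ℝ))⁻¹) atTop (𝓝 a) := by
    simpa using (tendsto_const_nhds (x := a)).sub hs
  refine tendsto_of_tendsto_of_tendsto_of_le_of_le' h0 tendsto_const_nhds ?_ ?_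
  · filter_upwards [hpos, hev] with N h1 h2
    have h3 : (N : ℝ) = √(N : ℝ) * √(N : ℝ) := (Real.mul_self_sqrt (Nat.cast_nonneg N)).symm
    have h4 := Nat.lt_floor_add_one (w * N + √(N : ℝ) * a)
    have h5 : √(N : ℝ) * ((⌊w * N + √(N : ℝ) * a⌋₊ : ℝ) / N - w) =
        ((⌊w * N + √(N : ℝ) * a⌋₊ : ℝ) - w * N) / √(N : ℝ) := by
      have h6 : (N : ℝ) ≠ 0 := by rw [h3]; positivity
      rw [eq_div_iff h2.ne']
      field_simp
      rw [← h3.trans (sq _).symm]
    rw [h5, le_div_iff₀ h2, sub_mul, inv_mul_cancel₀ h2.ne']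
    linarith
  · filter_upwards [hpos, hev] with N h1 h2
    have h3 : (N : ℝ) = √(N : ℝ) * √(N : ℝ) := (Real.mul_self_sqrt (Nat.cast_nonneg N)).symm
    have h4 := Nat.floor_le h1
    have h5 : √(N : ℝ) * ((⌊w * N + √(N : ℝ) * a⌋₊ : ℝ) / N - w) =
        ((⌊w * N + √(N : ℝ) * a⌋₊ : ℝ) - w * N) / √(N : ℝ) := by
      have h6 : (N : ℝ) ≠ 0 := by rw [h3]; positivity
      rw [eq_div_iff h2.ne']
      field_simp
      rw [← h3.trans (sq _).symm]
    rw [h5, div_le_iff₀ h2]
    linarith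

/-- PTX: the potential of the Turk's head links -/
theorem ptx : S_PTX := by
  intro hpar n _ hn Ψ han hPX R S hPT
  obtain ⟨-, -, -, -, -, -, hb1, hb2, -⟩ := hpar n hn
  refine ⟨hPT.pos, han, ?_⟩
  have hw : ∀ i, 0 < wst n i := by
    rintro (i | i)
    · simp only [wst, Sum.elim_inl]
      linarith
    · simp only [wst, Sum.elim_inr]
      linarith
  obtain ⟨r, C, hr, h⟩ := key
    (fun u : (Fin n ⊕ Fin n → ℝ) × ℝ => Ψ (cst (fun i => wst n i + u.1 i, u.2))) (Dn n)
    (fun v => -(R v : ℂ) - Complex.I * (S v : ℂ)) (analyticAt_cst han) (by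
      intro v
      set k : ℕ → Fin n ⊕ Fin n → ℕ := fun N i => ⌊wst n i * N + √(N : ℝ) * v.1 i⌋₊ with hk
      set x : ℕ → ℝ := fun N => v.2 / √(N : ℝ) with hx
      have hs0 : Tendsto (fun N : ℕ => √(N : ℝ)) atTop atTop :=
        (Real.tendsto_sqrt_atTop).comp tendsto_natCast_atTop_atTop
      have hs : Tendsto (fun N : ℕ => (√(N : ℝ))⁻¹) atTop (𝓝 0) := hs0.inv_tendsto_atTop
      have hev : ∀ᶠ N : ℕ in atTop, 0 < √(N : ℝ) := hs0.eventually_gt_atTop 0
      have hki : ∀ i, Tendsto (fun N : ℕ => √(N : ℝ) * ((k N i : ℝ) / N - wst n i)) atTop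
          (𝓝 (v.1 i)) := fun i => floor_lim (hw i) (v.1 i)
      have hxv : Tendsto (fun N : ℕ => √(N : ℝ) * x N) atTop (𝓝 v.2) := by
        refine Tendsto.congr' ?_ tendsto_const_nhds
        filter_upwards [hev] with N hN
        rw [hx]
        simp only
        field_simp
      refine ⟨fun N => (fun i => (k N i : ℝ) / N - wst n i, x N), ?_, ?_⟩
      · have h1 : Tendsto (fun N : ℕ => ((fun i => √(N : ℝ) * ((k N i : ℝ) / N - wst n i)),
            √(N : ℝ) * x N)) atTop (𝓝 (v.1, v.2)) :=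
          (tendsto_pi_nhds.mpr hki).prodMk_nhds hxv
        exact h1
      · have h1 := hPT.lim (fun N r => k N (Sum.inl r)) (fun N r => k N (Sum.inr r)) x v
          (fun r => by simpa [wst] using hki (Sum.inl r))
          (fun r => by simpa [wst] using hki (Sum.inr r)) hxv
        obtain ⟨ρ, hρ, hPX⟩ := hPX
        have hk0 : ∀ i, Tendsto (fun N : ℕ => (k N i : ℝ) / N - wst n i) atTop (𝓝 0) := by
          intro i
          have h2 := hs.mul (hki i)
          rw [zero_mul] at h2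
          refine h2.congr' ?_
          filter_upwards [hev] with N hN
          rw [← mul_assoc, inv_mul_cancel₀ hN.ne', one_mul]
        have hx0 : Tendsto x atTop (𝓝 0) := by
          have h2 := hs.mul hxv
          rw [zero_mul] at h2
          refine h2.congr' ?_
          filter_upwards [hev] with N hN
          rw [← mul_assoc, inv_mul_cancel₀ hN.ne', one_mul]
        have hk1 : ∀ᶠ N : ℕ in atTop, ∀ i, |(k N i : ℝ) / N - wst n i| < ρ := by
          rw [eventually_all]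
          intro i
          have := (hk0 i).eventually (Metric.ball_mem_nhds (0 : ℝ) hρ)
          simpa [Real.dist_eq] using this
        have hx1 : ∀ᶠ N : ℕ in atTop, |x N| < ρ := by
          have := hx0.eventually (Metric.ball_mem_nhds (0 : ℝ) hρ)
          simpa [Real.dist_eq] using this
        refine h1.congr' ?_
        filter_upwards [hk1, hx1, eventually_ge_atTop 1] with N h2 h3 h4
        have h5 := hPX N h4 (k N) (x N) h2 h3
        have h6 : (N : ℂ) ≠ 0 := by
          have : N ≠ 0 := by omega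
          exact_mod_cast this
        simp only [add_sub_cancel]
        rw [h5]
        field_simp
        ring)
  refine ⟨r, C, hr, fun u hu => ?_⟩
  have h1 := h u hu
  have h2 : Ψ (cst (fun i => wst n i + u.1 i, u.2)) - (Dn n : ℂ) + R u + Complex.I * S u =
      Ψ (cst (fun i => wst n i + u.1 i, u.2)) - (Dn n : ℂ) -
        (-(R u : ℂ) - Complex.I * (S u : ℂ)) := by ring
  rw [h2]
  exact h1

end Pool.Agent.Y240.TKX
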